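import Pool.Agent.Y244.HM.Pipe
import Pool.Agent.W131.HM.CapVol
import Pool.Agent.Y254.Main

/-!
# The Kakeya maximal function in the Wolff range, without loss
-/

set_option autoImplicit false

open Finset MeasureTheory
open scoped Classical ENNReal

namespace Pool.Agent.Y244.WR
open Pool.Agent.W46.HM Pool.Agent.W46.KK Pool.Agent.Y244.HM

/-- The `L^q` norm of a sum of `δ`-tubes with `δ`-separated directions, `δ < 1`. -/
def TubeQ (d : ℕ) (q : ℝ) : Prop :=
    ∃ C : ℝ, 0 < C ∧ ∀ δ : ℝ, 0 < δ → δ < 1 → ∀ (ι : Type) [Fintype ι]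
    (a e : ι → EuclideanSpace ℝ (Fin (d + 1))), (∀ i, ‖e i‖ = 1) →
    (∀ i j, i ≠ j → δ ≤ ‖e i - e j‖) →
    ∫⁻ x, (∑ i, (tube δ (a i) (e i)).indicator (fun _ => (1 : ℝ≥0∞)) x) ^ q ≤
      ENNReal.ofReal (C * δ ^ (d : ℝ) * (Fintype.card ι : ℝ) ^ (q - 1 / (d : ℝ)))

theorem weakQ {d : ℕ} (hd : 1 ≤ d) {c : ℝ} (hc0 : 0 < c) (h : TubeQ d (1 + c / d))
    (hC : S_CAP) (hV : S_VOL) : WeakP d c := by
  have hd0 : 0 < d := by omega
  have hdR : (0 : ℝ) < d := by exact_mod_cast hd0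
  set q : ℝ := 1 + c / d with hq
  set p : ℝ := 1 + d / c with hp
  have hp0 : 0 < p := by positivity
  have hq0 : 0 < q := by positivity
  have hpq : p.HolderConjugate q := by
    rw [Real.holderConjugate_iff]
    refine ⟨?_, ?_⟩
    · rw [hp]
      have : 0 < (d : ℝ) / c := by positivity
      linarith
    · rw [hp, hq]
      field_simp
      ring
  obtain ⟨C0, hC0, hT⟩ := h
  obtain ⟨C1, hC1, hcap⟩ := hC d
  obtain ⟨κ, hκ, hvol⟩ := hV d
  refine ⟨C1 * (C0 ^ (d : ℝ) * κ ^ (-((d : ℝ) + c))), by positivity,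
    fun δ hδ hδ1 f hf l hl => ?_⟩
  set A : ℝ≥0∞ := ∫⁻ y, f y ^ p with hA
  set E : Set (Metric.sphere (0 : EuclideanSpace ℝ (Fin (d + 1))) 1) :=
    {e | ENNReal.ofReal l < kmax δ f (e : EuclideanSpace ℝ (Fin (d + 1)))} with hE
  set D : ℝ := C1 * (C0 ^ (d : ℝ) * κ ^ (-((d : ℝ) + c))) * δ ^ (-((c - 1) * (d : ℝ))) *
    l ^ (-((d : ℝ) + c)) with hD
  have hD0 : 0 < D := by positivity
  by_cases hAtop : A = ⊤
  · rw [hAtop, ENNReal.top_rpow_of_pos hc0, ENNReal.mul_top (ENNReal.ofReal_pos.2 hD0).ne']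
    exact le_top
  obtain ⟨I, hIE, hIsep, hIcov⟩ := Pool.Agent.W101.HM.exists_net E hδ
  have hmeas : (volume : Measure (EuclideanSpace ℝ (Fin (d + 1)))).toSphere E ≤
      ENNReal.ofReal ((I.card : ℝ) * (C1 * δ ^ d)) := by
    refine (measure_mono hIcov).trans ((measure_biUnion_finset_le I _).trans ?_)
    refine (Finset.sum_le_sum fun e _ => hcap e δ hδ hδ1.le).trans ?_
    rw [Finset.sum_const, nsmul_eq_mul, ENNReal.ofReal_mul (Nat.cast_nonneg _),
      ENNReal.ofReal_natCast]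
  refine hmeas.trans ?_
  rcases I.eq_empty_or_nonempty with hI | hI
  · rw [hI]
    simp
  have hM : 0 < I.card := hI.card_pos
  -- the tubes
  have hch : ∀ e : {x // x ∈ I}, ∃ a : EuclideanSpace ℝ (Fin (d + 1)),
      ENNReal.ofReal (l * (κ * δ ^ d)) ≤
        ∫⁻ y in tube δ a ((e : Metric.sphere (0 : EuclideanSpace ℝ (Fin (d + 1))) 1) :
          EuclideanSpace ℝ (Fin (d + 1))), f y := by
    intro e
    have h1 : ENNReal.ofReal l < kmax δ f ((e : Metric.sphere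
      (0 : EuclideanSpace ℝ (Fin (d + 1))) 1) : EuclideanSpace ℝ (Fin (d + 1))) := hIE e e.2
    rw [kmax, lt_iSup_iff] at h1
    obtain ⟨a, ha⟩ := h1
    refine ⟨a, ?_⟩
    have he : ‖((e : Metric.sphere (0 : EuclideanSpace ℝ (Fin (d + 1))) 1) :
        EuclideanSpace ℝ (Fin (d + 1)))‖ = 1 := by
      simp
    obtain ⟨hv1, hv2⟩ := hvol a _ δ he hδ hδ1.le
    have hv0 : volume (tube δ a ((e : Metric.sphere (0 : EuclideanSpace ℝ (Fin (d + 1))) 1) :
        EuclideanSpace ℝ (Fin (d + 1)))) ≠ 0 := by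
      have : 0 < ENNReal.ofReal (κ * δ ^ d) := ENNReal.ofReal_pos.2 (by positivity)
      exact (this.trans_le hv1).ne'
    rw [ENNReal.ofReal_mul hl.le]
    calc ENNReal.ofReal l * ENNReal.ofReal (κ * δ ^ d)
        ≤ ENNReal.ofReal l * volume (tube δ a ((e : Metric.sphere
            (0 : EuclideanSpace ℝ (Fin (d + 1))) 1) : EuclideanSpace ℝ (Fin (d + 1)))) := by
          gcongr
      _ ≤ ((volume (tube δ a ((e : Metric.sphere
            (0 : EuclideanSpace ℝ (Fin (d + 1))) 1) : EuclideanSpace ℝ (Fin (d + 1)))))⁻¹ *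
            ∫⁻ y in tube δ a ((e : Metric.sphere (0 : EuclideanSpace ℝ (Fin (d + 1))) 1) :
              EuclideanSpace ℝ (Fin (d + 1))), f y) * volume (tube δ a ((e : Metric.sphere
            (0 : EuclideanSpace ℝ (Fin (d + 1))) 1) : EuclideanSpace ℝ (Fin (d + 1)))) := by
          gcongr
      _ = _ := by
          rw [mul_right_comm, ENNReal.inv_mul_cancel hv0 hv2, one_mul]
  choose a ha using hch
  set g : EuclideanSpace ℝ (Fin (d + 1)) → ℝ≥0∞ := fun x => ∑ i : {x // x ∈ I},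
    (tube δ (a i) ((i : Metric.sphere (0 : EuclideanSpace ℝ (Fin (d + 1))) 1) :
      EuclideanSpace ℝ (Fin (d + 1)))).indicator (fun _ => (1 : ℝ≥0∞)) x with hg
  have hTm : ∀ i : {x // x ∈ I}, MeasurableSet (tube δ (a i) ((i : Metric.sphere
      (0 : EuclideanSpace ℝ (Fin (d + 1))) 1) : EuclideanSpace ℝ (Fin (d + 1)))) :=
    fun i => (tube_isClosed _ _ _).measurableSet
  have hgm : Measurable g :=
    Finset.measurable_sum _ fun i _ => measurable_const.indicator (hTm i)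
  have hT' := hT δ hδ hδ1 {x // x ∈ I} a
    (fun i => ((i : Metric.sphere (0 : EuclideanSpace ℝ (Fin (d + 1))) 1) :
      EuclideanSpace ℝ (Fin (d + 1))))
    (fun i => by simp)
    (fun i j hij => by
      have h1 := hIsep i i.2 j j.2 (fun hh => hij (Subtype.ext hh))
      rwa [Subtype.dist_eq, dist_eq_norm] at h1)
  rw [Fintype.card_coe] at hT'
  have hsum : ∑ i : {x // x ∈ I}, ∫⁻ y in tube δ (a i) ((i : Metric.sphere
      (0 : EuclideanSpace ℝ (Fin (d + 1))) 1) : EuclideanSpace ℝ (Fin (d + 1))), f y =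
      ∫⁻ y, (f * g) y := by
    have e1 : ∀ y, (f * g) y = ∑ i : {x // x ∈ I}, (tube δ (a i) ((i : Metric.sphere
      (0 : EuclideanSpace ℝ (Fin (d + 1))) 1) : EuclideanSpace ℝ (Fin (d + 1)))).indicator f y := by
      intro y
      rw [Pi.mul_apply, hg, Finset.mul_sum]
      refine Finset.sum_congr rfl fun i _ => ?_
      by_cases hy : y ∈ tube δ (a i) ((i : Metric.sphere
        (0 : EuclideanSpace ℝ (Fin (d + 1))) 1) : EuclideanSpace ℝ (Fin (d + 1)))
      · simp [hy]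
      · simp [hy]
    simp_rw [e1]
    rw [lintegral_finsetSum' _ fun i _ => hf.indicator (hTm i)]
    exact Finset.sum_congr rfl fun i _ => (lintegral_indicator (hTm i) _).symm
  have hlow : ENNReal.ofReal ((I.card : ℝ) * (l * (κ * δ ^ d))) ≤ ∫⁻ y, (f * g) y := by
    rw [← hsum, ENNReal.ofReal_mul (Nat.cast_nonneg _), ENNReal.ofReal_natCast]
    have : ∑ i : {x // x ∈ I}, ENNReal.ofReal (l * (κ * δ ^ d)) =
        (I.card : ℝ≥0∞) * ENNReal.ofReal (l * (κ * δ ^ d)) := by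
      rw [Finset.sum_const, nsmul_eq_mul, Finset.card_univ, Fintype.card_coe]
    rw [← this]
    exact Finset.sum_le_sum fun i _ => ha i
  have hHol := ENNReal.lintegral_mul_le_Lp_mul_Lq volume hpq hf hgm.aemeasurable
  obtain ⟨a', ha'0, hAa⟩ : ∃ a' : ℝ, 0 ≤ a' ∧ A = ENNReal.ofReal a' :=
    ⟨A.toReal, ENNReal.toReal_nonneg, (ENNReal.ofReal_toReal hAtop).symm⟩
  have hreal : (I.card : ℝ) * (l * (κ * δ ^ d)) ≤
      a' ^ (1 / p) * (C0 * δ ^ (d : ℝ) * (I.card : ℝ) ^ (q - 1 / (d : ℝ))) ^ (1 / q) := by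
    have hB : 0 ≤ C0 * δ ^ (d : ℝ) * (I.card : ℝ) ^ (q - 1 / (d : ℝ)) := by positivity
    have h1 : ENNReal.ofReal ((I.card : ℝ) * (l * (κ * δ ^ d))) ≤
        ENNReal.ofReal (a' ^ (1 / p) *
          (C0 * δ ^ (d : ℝ) * (I.card : ℝ) ^ (q - 1 / (d : ℝ))) ^ (1 / q)) := by
      rw [ENNReal.ofReal_mul (p := a' ^ (1 / p)) (by positivity),
        ← ENNReal.ofReal_rpow_of_nonneg ha'0 (by positivity),
        ← ENNReal.ofReal_rpow_of_nonneg hB (by positivity), ← hAa]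
      refine (hlow.trans hHol).trans ?_
      gcongr
    exact (ENNReal.ofReal_le_ofReal_iff (by positivity)).1 h1
  have hfin := Pool.Agent.W101.HM.real_alg hd0 hM hc0 hC0 hκ hl hδ ha'0 hp hq hreal
  rw [hAa, ENNReal.ofReal_rpow_of_nonneg ha'0 hc0.le, ← ENNReal.ofReal_mul hD0.le]
  refine ENNReal.ofReal_le_ofReal ?_
  have h5 : (I.card : ℝ) * (C1 * δ ^ d) ≤ (C0 ^ (d : ℝ) * κ ^ (-((d : ℝ) + c)) * a' ^ c *
      l ^ (-((d : ℝ) + c)) * δ ^ (-((d : ℝ) * c))) * (C1 * δ ^ d) := by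
    gcongr
  refine h5.trans_eq ?_
  have e5 : δ ^ (-((c - 1) * (d : ℝ))) = δ ^ (-((d : ℝ) * c)) * δ ^ d := by
    rw [← Real.rpow_natCast δ d, ← Real.rpow_add hδ]
    congr 1
    ring
  rw [hD, e5]
  ring


/-- The tube inequality of helper254 in the form `TubeQ`. -/
theorem tubeQ_wolff {d : ℕ} (hd : 2 ≤ d) {q : ℝ} (hq : 1 + 2 / ((d : ℝ) + 1) < q) :
    TubeQ d q := by
  have hq' : 1 + 2 / ((d + 1 : ℕ) : ℝ) < q := by
    push_cast
    exact hq
  obtain ⟨A, hA, h⟩ := Pool.Agent.Y254.wolff (n := d + 1) (by omega) hq'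
  refine ⟨A, hA, ?_⟩
  intro δ hδ hδ1 ι _ a e he hsep
  have key := h δ hδ hδ1 a e he hsep
  have e1 : (((d + 1 : ℕ) : ℝ) - 1) = d := by push_cast; ring
  rw [e1] at key
  refine le_trans (le_of_eq ?_) (key.trans (le_of_eq ?_))
  · rfl
  · congr 1
    have e2 : δ ^ (d + 1 - 1) = δ ^ (d : ℝ) := by
      rw [← Real.rpow_natCast]
      rfl
    rw [e2]
    ring

/-- Weak and strong type estimates in the Wolff range: `c > 2 d / (d + 1)`, `c > 1`. -/
theorem wolff_max {d : ℕ} (hd : 2 ≤ d) {c : ℝ} (hc : 2 * (d : ℝ) / ((d : ℝ) + 1) < c) :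
    WeakP d c ∧ StrongP d c := by
  have hd2 : (2 : ℝ) ≤ d := by exact_mod_cast hd
  have hd0 : (0 : ℝ) < d := by linarith
  have hc1 : 1 < c := by
    have : 1 ≤ 2 * (d : ℝ) / ((d : ℝ) + 1) := by
      rw [le_div_iff₀ (by linarith)]
      linarith
    linarith
  have hq : 1 + 2 / ((d : ℝ) + 1) < 1 + c / (d : ℝ) := by
    have : 2 / ((d : ℝ) + 1) < c / d := by
      rw [div_lt_div_iff₀ (by linarith) hd0]
      rw [div_lt_iff₀ (by linarith)] at hc
      linarith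
    linarith
  have h1 := weakQ (by omega) (by linarith) (tubeQ_wolff hd hq) Pool.Agent.W131.HM.CAP
    Pool.Agent.W131.HM.VOL
  exact ⟨h1, strongP (by omega) hc1 h1⟩

end Pool.Agent.Y244.WR
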